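import Mathlib

/-!
# A sieve for families equidistributed modulo small numbers (helper67)
-/

set_option autoImplicit false

namespace Pool.Agent.K7.H67.SIV

open Finset

/-- the equidistribution of a family of integers -/
def EquiZ {ι : Type} (T : Finset ι) (t : ι → ℤ) (X : ℕ) : Prop :=
  ∀ q : ℕ, 1 ≤ q → q ≤ X → ∀ r : ℤ, |((T.filter (fun i => (q : ℤ) ∣ t i - r)).card : ℝ) - (T.card : ℝ) / q| ≤ (T.card : ℝ) / X

/-- residues in a set -/
def InR (p : ℕ) (R : Finset ℕ) (n : ℤ) : Prop := ∃ a ∈ R, (p : ℤ) ∣ n - a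

lemma InR_unique {p : ℕ} {R : Finset ℕ} (hR : R ⊆ range p) {n : ℤ} {a b : ℕ} (ha : a ∈ R) (hb : b ∈ R) (hna : (p : ℤ) ∣ n - a)
    (hnb : (p : ℤ) ∣ n - b) : a = b := by
  have h1 := mem_range.1 (hR ha)
  have h2 := mem_range.1 (hR hb)
  have h3 : (p : ℤ) ∣ (a : ℤ) - b := by
    have := dvd_sub hnb hna
    have e : n - (b : ℤ) - (n - a) = (a : ℤ) - b := by ring
    rwa [e] at this
  obtain ⟨k, hk⟩ := h3
  have hk0 : k = 0 := by
    rcases lt_trichotomy k 0 with h | h | h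
    · nlinarith
    · exact h
    · nlinarith
  rw [hk0, mul_zero] at hk
  omega

open Classical in
lemma ind_sum {p : ℕ} {R : Finset ℕ} (hR : R ⊆ range p) (n : ℤ) :
    (if InR p R n then (1 : ℝ) else 0) = ∑ a ∈ R, if (p : ℤ) ∣ n - a then (1 : ℝ) else 0 := by
  by_cases h : InR p R n
  · rw [if_pos h]
    obtain ⟨a, ha, hna⟩ := h
    rw [sum_eq_single a]
    · rw [if_pos hna]
    · intro b hb hba
      rw [if_neg]
      intro hnb
      exact hba (InR_unique hR hb ha hnb hna)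
    · intro h
      exact absurd ha h
  · rw [if_neg h]
    symm
    apply sum_eq_zero
    intro a ha
    rw [if_neg]
    intro hna
    exact h ⟨a, ha, hna⟩

open Classical in
/-- the number of members in a class modulo `p` and one modulo `p'` -/
lemma pair_count {ι : Type} {T : Finset ι} {t : ι → ℤ} {X : ℕ} (hT : EquiZ T t X) {p p' : ℕ} (hp : p.Prime) (hp' : p'.Prime) (hne : p ≠ p')
    (hX : p * p' ≤ X) (a a' : ℤ) :
    |∑ i ∈ T, (if (p : ℤ) ∣ t i - a then (1 : ℝ) else 0) * (if (p' : ℤ) ∣ t i - a' then (1 : ℝ) else 0) - (T.card : ℝ) / (p * p')| ≤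
      (T.card : ℝ) / X := by
  have hcop : IsCoprime (p : ℤ) (p' : ℤ) := by
    rw [Nat.isCoprime_iff_coprime]
    exact (Nat.coprime_primes hp hp').2 hne
  obtain ⟨u, v, huv⟩ := hcop
  -- `r = a + u p (a' - a)`
  obtain ⟨r, hr⟩ : ∃ r : ℤ, r = a + u * p * (a' - a) := ⟨_, rfl⟩
  have hra : (p : ℤ) ∣ r - a := ⟨u * (a' - a), by rw [hr]; ring⟩
  have hra' : (p' : ℤ) ∣ r - a' := by
    refine ⟨-(v * (a' - a)), ?_⟩
    rw [hr]
    have : u * p = 1 - v * p' := by linarith
    rw [this]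
    ring
  have hcop' : IsCoprime (p : ℤ) (p' : ℤ) := ⟨u, v, huv⟩
  have h1 : ∀ i ∈ T, (if (p : ℤ) ∣ t i - a then (1 : ℝ) else 0) * (if (p' : ℤ) ∣ t i - a' then (1 : ℝ) else 0) =
      if ((p * p' : ℕ) : ℤ) ∣ t i - r then (1 : ℝ) else 0 := by
    intro i _
    have h2 : ((p * p' : ℕ) : ℤ) ∣ t i - r ↔ (p : ℤ) ∣ t i - a ∧ (p' : ℤ) ∣ t i - a' := by
      push_cast
      constructor
      · intro h
        refine ⟨?_, ?_⟩
        · have h3 := dvd_add (dvd_trans (dvd_mul_right _ _) h) hra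
          have e : t i - r + (r - a) = t i - a := by ring
          rwa [e] at h3
        · have h3 := dvd_add (dvd_trans (dvd_mul_left _ _) h) hra'
          have e : t i - r + (r - a') = t i - a' := by ring
          rwa [e] at h3
      · rintro ⟨h3, h4⟩
        apply hcop'.mul_dvd
        · have h5 := dvd_sub h3 hra
          have e : t i - a - (r - a) = t i - r := by ring
          rwa [e] at h5
        · have h5 := dvd_sub h4 hra'
          have e : t i - a' - (r - a') = t i - r := by ring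
          rwa [e] at h5
    by_cases h3 : (p : ℤ) ∣ t i - a
    · by_cases h4 : (p' : ℤ) ∣ t i - a'
      · rw [if_pos h3, if_pos h4, if_pos (h2.2 ⟨h3, h4⟩), mul_one]
      · rw [if_pos h3, if_neg h4, if_neg (fun h => h4 (h2.1 h).2), mul_zero]
    · rw [if_neg h3, if_neg (fun h => h3 (h2.1 h).1), zero_mul]
  rw [sum_congr rfl h1, sum_boole]
  have h2 := hT (p * p') (Nat.mul_pos hp.pos hp'.pos) hX r
  push_cast at h2 ⊢
  exact h2

open Classical in
/-- the second moment method -/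
theorem sieve {ι : Type} (T : Finset ι) (t : ι → ℤ) (X : ℕ) (hT : EquiZ T t X) (P : Finset ℕ) (hP : ∀ p ∈ P, p.Prime) (Q : ℕ)
    (hQ : ∀ p ∈ P, p ≤ Q) (hQX : 3 * Q ^ 3 ≤ X) (R : ℕ → Finset ℕ) (κ : ℝ) (hκ : 0 < κ)
    (hR : ∀ p ∈ P, R p ⊆ range p ∧ κ * p ≤ p - ((R p).card : ℝ)) (S : Finset ι) (hS : S ⊆ T) (hSR : ∀ i ∈ S, ∀ p ∈ P, InR p (R p) (t i)) :
    (S.card : ℝ) * (κ ^ 2 * P.card) ≤ 2 * T.card := by
  rcases eq_empty_or_nonempty P with hPe | hPne
  · rw [hPe, card_empty, Nat.cast_zero, mul_zero, mul_zero]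
    positivity
  obtain ⟨p₀, hp₀⟩ := hPne
  have hQ2 : 2 ≤ Q := (hP p₀ hp₀).two_le.trans (hQ p₀ hp₀)
  have hQr : (2 : ℝ) ≤ Q := by exact_mod_cast hQ2
  have hX0 : (0 : ℝ) < X := by
    have : 0 < Q ^ 3 := by positivity
    exact_mod_cast (by omega : 0 < X)
  have hPQ : P.card ≤ Q := by
    have h1 : P ⊆ Icc 1 Q := fun p hp => mem_Icc.2 ⟨(hP p hp).one_lt.le, hQ p hp⟩
    have h2 := card_le_card h1
    rwa [Nat.card_Icc, Nat.add_sub_cancel] at h2
  have hPcard : (0 : ℝ) < P.card := by exact_mod_cast card_pos.2 ⟨p₀, hp₀⟩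
  have hPQr : (P.card : ℝ) ≤ Q := by exact_mod_cast hPQ
  have hT0 : (0 : ℝ) ≤ T.card := Nat.cast_nonneg _
  obtain ⟨ρ, hρ⟩ : ∃ ρ : ℕ → ℝ, ρ = fun p => ((R p).card : ℝ) / p := ⟨_, rfl⟩
  obtain ⟨g, hg⟩ : ∃ g : ℕ → ℤ → ℝ, g = fun p n => (if InR p (R p) n then (1 : ℝ) else 0) - ρ p := ⟨_, rfl⟩
  have hρ0 : ∀ p ∈ P, 0 ≤ ρ p ∧ ρ p ≤ 1 - κ := by
    intro p hp
    have hpp : (0 : ℝ) < p := by exact_mod_cast (hP p hp).pos
    rw [hρ]
    refine ⟨by positivity, ?_⟩
    simp only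
    rw [div_le_iff₀ hpp]
    have := (hR p hp).2
    linarith
  have hκ1 : κ ≤ 1 := by
    have := hρ0 p₀ hp₀
    linarith
  have hRc : ∀ p ∈ P, ((R p).card : ℝ) ≤ p := by
    intro p hp
    have := (card_le_card (hR p hp).1).trans (card_range p).le
    exact_mod_cast this
  -- averages
  have hN1 : ∀ p ∈ P, |∑ i ∈ T, (if InR p (R p) (t i) then (1 : ℝ) else 0) - ρ p * T.card| ≤ Q * (T.card / X) := by
    intro p hp
    have hpp : (0 : ℝ) < p := by exact_mod_cast (hP p hp).pos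
    have h1 : ∑ i ∈ T, (if InR p (R p) (t i) then (1 : ℝ) else 0) - ρ p * T.card =
        ∑ a ∈ R p, (((T.filter (fun i => (p : ℤ) ∣ t i - (a : ℤ))).card : ℝ) - T.card / p) := by
      rw [sum_sub_distrib, sum_const, nsmul_eq_mul, hρ]
      have h2 : ∑ i ∈ T, (if InR p (R p) (t i) then (1 : ℝ) else 0) = ∑ a ∈ R p, ((T.filter (fun i => (p : ℤ) ∣ t i - (a : ℤ))).card : ℝ) := by
        rw [sum_congr rfl (fun i _ => ind_sum (hR p hp).1 (t i)), sum_comm]
        refine sum_congr rfl fun a _ => ?_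
        rw [sum_boole]
      rw [h2]
      ring
    rw [h1]
    refine (abs_sum_le_sum_abs _ _).trans ?_
    calc ∑ a ∈ R p, |((T.filter (fun i => (p : ℤ) ∣ t i - (a : ℤ))).card : ℝ) - T.card / p| ≤ ∑ _a ∈ R p, (T.card : ℝ) / X := by
          apply sum_le_sum
          intro a _
          apply hT p (hP p hp).one_lt.le _ a
          have h3 := hQ p hp
          have h4 : Q ≤ Q ^ 3 := Nat.le_self_pow (by norm_num) Q
          omega
      _ = (R p).card * (T.card / X) := by rw [sum_const, nsmul_eq_mul]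
      _ ≤ Q * (T.card / X) := by
          apply mul_le_mul_of_nonneg_right _ (by positivity)
          exact (hRc p hp).trans (by exact_mod_cast hQ p hp)
  have hN2 : ∀ p ∈ P, ∀ p' ∈ P, p ≠ p' → |∑ i ∈ T, (if InR p (R p) (t i) then (1 : ℝ) else 0) * (if InR p' (R p') (t i) then (1 : ℝ) else 0) -
      ρ p * ρ p' * T.card| ≤ Q ^ 2 * (T.card / X) := by
    intro p hp p' hp' hne
    have hpp : (0 : ℝ) < p := by exact_mod_cast (hP p hp).pos
    have hpp' : (0 : ℝ) < p' := by exact_mod_cast (hP p' hp').pos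
    have h1 : ∑ i ∈ T, (if InR p (R p) (t i) then (1 : ℝ) else 0) * (if InR p' (R p') (t i) then (1 : ℝ) else 0) - ρ p * ρ p' * T.card =
        ∑ a ∈ R p, ∑ a' ∈ R p', (∑ i ∈ T, (if (p : ℤ) ∣ t i - (a : ℤ) then (1 : ℝ) else 0) * (if (p' : ℤ) ∣ t i - (a' : ℤ) then (1 : ℝ) else 0) -
          T.card / (p * p')) := by
      simp only [sum_sub_distrib, sum_const, nsmul_eq_mul, hρ]
      have h2 : ∑ i ∈ T, (if InR p (R p) (t i) then (1 : ℝ) else 0) * (if InR p' (R p') (t i) then (1 : ℝ) else 0) =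
          ∑ a ∈ R p, ∑ a' ∈ R p', ∑ i ∈ T, (if (p : ℤ) ∣ t i - (a : ℤ) then (1 : ℝ) else 0) * (if (p' : ℤ) ∣ t i - (a' : ℤ) then (1 : ℝ) else 0) := by
        have h3 : ∀ i ∈ T, (if InR p (R p) (t i) then (1 : ℝ) else 0) * (if InR p' (R p') (t i) then (1 : ℝ) else 0) =
            ∑ a ∈ R p, ∑ a' ∈ R p', (if (p : ℤ) ∣ t i - (a : ℤ) then (1 : ℝ) else 0) * (if (p' : ℤ) ∣ t i - (a' : ℤ) then (1 : ℝ) else 0) := by
          intro i _
          rw [ind_sum (hR p hp).1, ind_sum (hR p' hp').1, sum_mul_sum]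
        rw [sum_congr rfl h3, sum_comm]
        refine sum_congr rfl fun a _ => ?_
        rw [sum_comm]
      rw [h2]
      field_simp
    rw [h1]
    calc |∑ a ∈ R p, ∑ a' ∈ R p', (∑ i ∈ T, (if (p : ℤ) ∣ t i - (a : ℤ) then (1 : ℝ) else 0) * (if (p' : ℤ) ∣ t i - (a' : ℤ) then (1 : ℝ) else 0) -
          T.card / (p * p'))| ≤ ∑ a ∈ R p, ∑ a' ∈ R p', (T.card : ℝ) / X := by
          refine (abs_sum_le_sum_abs _ _).trans (sum_le_sum fun a _ => ?_)
          refine (abs_sum_le_sum_abs _ _).trans (sum_le_sum fun a' _ => ?_)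
          apply pair_count hT (hP p hp) (hP p' hp') hne
          calc p * p' ≤ Q * Q := Nat.mul_le_mul (hQ p hp) (hQ p' hp')
            _ ≤ Q * Q * Q := Nat.le_mul_of_pos_right _ (by omega)
            _ = Q ^ 3 := by ring
            _ ≤ X := by omega
      _ = (R p).card * ((R p').card * (T.card / X)) := by simp only [sum_const, nsmul_eq_mul]
      _ ≤ Q * (Q * (T.card / X)) := by
          have e1 : ((R p).card : ℝ) ≤ Q := (hRc p hp).trans (by exact_mod_cast hQ p hp)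
          have e2 : ((R p').card : ℝ) ≤ Q := (hRc p' hp').trans (by exact_mod_cast hQ p' hp')
          gcongr
      _ = _ := by ring
  -- correlations
  have hcor : ∀ p ∈ P, ∀ p' ∈ P, ∑ i ∈ T, g p (t i) * g p' (t i) ≤ (if p = p' then (T.card : ℝ) else 0) + 3 * Q ^ 2 * (T.card / X) := by
    intro p hp p' hp'
    have hpos : 0 ≤ 3 * (Q : ℝ) ^ 2 * (T.card / X) := by positivity
    by_cases hne : p = p'
    · rw [if_pos hne, ← hne]
      have h1 : ∑ i ∈ T, g p (t i) * g p (t i) ≤ ∑ _i ∈ T, (1 : ℝ) := by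
        apply sum_le_sum
        intro i _
        have h2 := hρ0 p hp
        rw [hg]
        simp only
        split_ifs <;> nlinarith
      rw [sum_const, nsmul_eq_mul, mul_one] at h1
      linarith
    · rw [if_neg hne, zero_add]
      have h1 := hN2 p hp p' hp' hne
      have h2 := hN1 p hp
      have h3 := hN1 p' hp'
      have h4 : ∑ i ∈ T, g p (t i) * g p' (t i) =
          (∑ i ∈ T, (if InR p (R p) (t i) then (1 : ℝ) else 0) * (if InR p' (R p') (t i) then (1 : ℝ) else 0) - ρ p * ρ p' * T.card) -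
          ρ p' * (∑ i ∈ T, (if InR p (R p) (t i) then (1 : ℝ) else 0) - ρ p * T.card) -
          ρ p * (∑ i ∈ T, (if InR p' (R p') (t i) then (1 : ℝ) else 0) - ρ p' * T.card) := by
        have h5 : ∀ i ∈ T, g p (t i) * g p' (t i) =
            (if InR p (R p) (t i) then (1 : ℝ) else 0) * (if InR p' (R p') (t i) then (1 : ℝ) else 0) -
            ρ p' * (if InR p (R p) (t i) then (1 : ℝ) else 0) - ρ p * (if InR p' (R p') (t i) then (1 : ℝ) else 0) + ρ p * ρ p' := by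
          intro i _
          rw [hg]
          ring
        rw [sum_congr rfl h5, sum_add_distrib, sum_sub_distrib, sum_sub_distrib, ← mul_sum, ← mul_sum, sum_const, nsmul_eq_mul]
        ring
      rw [h4]
      have hw : 0 ≤ (T.card : ℝ) / X := by positivity
      obtain ⟨w, hw'⟩ : ∃ w : ℝ, w = (T.card : ℝ) / X := ⟨_, rfl⟩
      rw [← hw'] at h1 h2 h3 hw ⊢
      have a1 := abs_le.1 h1
      have a2 := abs_le.1 h2
      have a3 := abs_le.1 h3
      have b1 := hρ0 p hp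
      have b2 := hρ0 p' hp'
      have c1 : -(ρ p' * (∑ i ∈ T, (if InR p (R p) (t i) then (1 : ℝ) else 0) - ρ p * T.card)) ≤ Q * w := by
        nlinarith [mul_nonneg (by positivity : (0 : ℝ) ≤ Q) hw]
      have c2 : -(ρ p * (∑ i ∈ T, (if InR p' (R p') (t i) then (1 : ℝ) else 0) - ρ p' * T.card)) ≤ Q * w := by
        nlinarith [mul_nonneg (by positivity : (0 : ℝ) ≤ Q) hw]
      have c3 : (Q : ℝ) * w ≤ Q ^ 2 * w := by
        apply mul_le_mul_of_nonneg_right _ hw
        nlinarith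
      linarith
  -- the second moment
  have hmom : ∑ i ∈ T, (∑ p ∈ P, g p (t i)) ^ 2 ≤ 2 * P.card * T.card := by
    have h1 : ∑ i ∈ T, (∑ p ∈ P, g p (t i)) ^ 2 = ∑ p ∈ P, ∑ p' ∈ P, ∑ i ∈ T, g p (t i) * g p' (t i) := by
      have h2 : ∀ i ∈ T, (∑ p ∈ P, g p (t i)) ^ 2 = ∑ p ∈ P, ∑ p' ∈ P, g p (t i) * g p' (t i) := by
        intro i _
        rw [sq, sum_mul_sum]
      rw [sum_congr rfl h2, sum_comm]
      refine sum_congr rfl fun p _ => ?_
      rw [sum_comm]
    rw [h1]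
    obtain ⟨m, hm⟩ : ∃ m : ℝ, m = (P.card : ℝ) := ⟨_, rfl⟩
    obtain ⟨c, hc⟩ : ∃ c : ℝ, c = (T.card : ℝ) := ⟨_, rfl⟩
    obtain ⟨E, hE⟩ : ∃ E : ℝ, E = 3 * (Q : ℝ) ^ 2 * (c / X) := ⟨_, rfl⟩
    rw [← hm, ← hc]
    rw [← hm] at hPQr hPcard
    rw [← hc] at hT0
    simp only [← hc] at hcor
    simp only [← hE] at hcor
    have h3 : m * E ≤ c := by
      calc m * E ≤ Q * E := by
            apply mul_le_mul_of_nonneg_right hPQr
            rw [hE]
            positivity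
        _ = (3 * (Q : ℝ) ^ 3) / X * c := by rw [hE]; ring
        _ ≤ 1 * c := by
            apply mul_le_mul_of_nonneg_right _ hT0
            rw [div_le_one hX0]
            exact_mod_cast hQX
        _ = c := one_mul _
    calc ∑ p ∈ P, ∑ p' ∈ P, ∑ i ∈ T, g p (t i) * g p' (t i) ≤ ∑ p ∈ P, ∑ p' ∈ P, ((if p = p' then c else 0) + E) :=
          sum_le_sum fun p hp => sum_le_sum fun p' hp' => hcor p hp p' hp'
      _ = m * c + m * (m * E) := by
          have h2 : ∀ p ∈ P, ∑ p' ∈ P, ((if p = p' then c else 0) + E) = c + m * E := by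
            intro p hp
            rw [sum_add_distrib, sum_ite_eq P p, if_pos hp, sum_const, nsmul_eq_mul, ← hm]
          rw [sum_congr rfl h2, sum_const, nsmul_eq_mul, ← hm]
          ring
      _ ≤ m * c + m * c := by
          have := mul_le_mul_of_nonneg_left h3 hPcard.le
          linarith
      _ = 2 * m * c := by ring
  -- the sifted members
  have hlow : ∀ i ∈ S, (κ * P.card) ^ 2 ≤ (∑ p ∈ P, g p (t i)) ^ 2 := by
    intro i hi
    apply pow_le_pow_left₀ (by positivity)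
    calc κ * P.card = ∑ _p ∈ P, κ := by rw [sum_const, nsmul_eq_mul]; ring
      _ ≤ ∑ p ∈ P, g p (t i) := by
          apply sum_le_sum
          intro p hp
          rw [hg]
          simp only
          rw [if_pos (hSR i hi p hp)]
          have := (hρ0 p hp).2
          linarith
  have h1 : (S.card : ℝ) * (κ * P.card) ^ 2 ≤ 2 * P.card * T.card := by
    calc (S.card : ℝ) * (κ * P.card) ^ 2 = ∑ _i ∈ S, (κ * P.card) ^ 2 := by rw [sum_const, nsmul_eq_mul]
      _ ≤ ∑ i ∈ S, (∑ p ∈ P, g p (t i)) ^ 2 := sum_le_sum hlow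
      _ ≤ ∑ i ∈ T, (∑ p ∈ P, g p (t i)) ^ 2 := sum_le_sum_of_subset_of_nonneg hS (fun _ _ _ => sq_nonneg _)
      _ ≤ _ := hmom
  have h2 : (S.card : ℝ) * (κ ^ 2 * P.card) * (P.card : ℝ) ≤ (2 * T.card) * (P.card : ℝ) := by
    have e1 : (S.card : ℝ) * (κ ^ 2 * P.card) * (P.card : ℝ) = (S.card : ℝ) * (κ * P.card) ^ 2 := by ring
    rw [e1]
    linarith
  exact le_of_mul_le_mul_right h2 hPcard

end Pool.Agent.K7.H67.SIV
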