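import Pool.Agent.K7.H90.DE.F
import Pool.Agent.K7.H60.SQ.PN

/-!
# Many primes modulo which a polynomial has a root (helper67)
-/

set_option autoImplicit false

namespace Pool.Agent.K7.H67.SIV

open Polynomial NumberField Filter Topology Pool.Agent.W401.Cheb Pool.Agent.Q202.RT Pool.Agent.K7.H90.DE

/-- the primes modulo which a monic irreducible polynomial has a root have positive density -/
theorem dens_root (f : ℤ[X]) (hf : f.Monic) (hirr : Irreducible f) (hdeg : 1 ≤ f.natDegree) :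
    ∃ δ : ℝ, 0 < δ ∧ Tendsto (M fun q => open scoped Classical in
      if ∃ r : ℤ, (q : ℤ) ∣ f.eval r then 1 else 0) atTop (𝓝 δ) := by
  classical
  have hFirr : Irreducible (f.map (Int.castRingHom ℚ)) :=
    (Polynomial.IsPrimitive.Int.irreducible_iff_irreducible_map_cast hf.isPrimitive).1 hirr
  obtain ⟨L, _, _, _, hs0⟩ := exists_L _ hFirr.separable
  have hs : (f.map (Int.castRingHom L)).Splits := by
    rw [Polynomial.map_map] at hs0
    have h2 : (algebraMap ℚ L).comp (Int.castRingHom ℚ) = Int.castRingHom L :=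
      RingHom.ext_int _ _
    rw [h2] at hs0
    exact hs0
  obtain ⟨t, ht⟩ := split_ring f hf L hs
  obtain ⟨D0, hD0, hinj⟩ := inj_red (L := L) t.toFinset
  obtain ⟨C, hC⟩ : ∃ C : Finset Gal(L/ℚ), C = Finset.univ.filter fun τ => ∃ θ ∈ t, τ • θ = θ := ⟨_, rfl⟩
  have htne : ∃ θ, θ ∈ t := by
    by_contra hcon
    push Not at hcon
    have h0 : t = 0 := Multiset.eq_zero_of_forall_notMem hcon
    rw [h0, Multiset.map_zero, Multiset.prod_zero] at ht
    have h1 := natDegree_map_eq_of_injective (RingHom.injective_int (Int.castRingHom (𝓞 L))) f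
    rw [ht, natDegree_one] at h1
    omega
  obtain ⟨θ₀, hθ₀⟩ := htne
  have h1C : (1 : Gal(L/ℚ)) ∈ C := by
    rw [hC, Finset.mem_filter]
    exact ⟨Finset.mem_univ _, θ₀, hθ₀, one_smul _ _⟩
  refine ⟨(C.card : ℝ) / Nat.card Gal(L/ℚ), ?_, ?_⟩
  · have h1 : 0 < C.card := Finset.card_pos.2 ⟨1, h1C⟩
    have h2 : 0 < Nat.card Gal(L/ℚ) := Nat.card_pos
    positivity
  · refine dens_of_frob L C (fun q => ∃ r : ℤ, (q : ℤ) ∣ f.eval r) D0 hD0 ?_
    intro q hq hqD φ τ hτ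
    rw [root_iff f L t ht φ (fun x hx y hy => hinj q hqD φ x (Multiset.mem_toFinset.2 hx) y
      (Multiset.mem_toFinset.2 hy)) τ hτ, hC, Finset.mem_filter]
    exact ⟨fun h => h.2, fun h => ⟨Finset.mem_univ _, h⟩⟩

/-- the number of these primes -/
theorem many_monic (f : ℤ[X]) (hf : f.Monic) (hirr : Irreducible f) (hdeg : 1 ≤ f.natDegree) (D : ℕ) (hD : D ≠ 0) :
    ∃ Q₀ : ℕ, ∀ Q : ℕ, Q₀ ≤ Q → ∃ P : Finset ℕ, (∀ p ∈ P, p.Prime ∧ p ≤ Q ∧ ¬ p ∣ D ∧ ∃ r : ℤ, (p : ℤ) ∣ f.eval r) ∧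
      (Q : ℝ) ^ (9 / 10 : ℝ) ≤ P.card := by
  classical
  obtain ⟨δ, hδ, hlim⟩ := dens_root f hf hirr hdeg
  have h1 : ∀ᶠ N : ℕ in atTop, δ / 2 < M (fun q => if ∃ r : ℤ, (q : ℤ) ∣ f.eval r then 1 else 0) N :=
    hlim.eventually_const_lt (by linarith)
  have h2 := Pool.Agent.K7.H60.SQ.pi_lower
  -- `δ/2 * Q / (2 log Q) ≥ Q ^ (9/10) + D`
  have h3 : ∀ᶠ Q : ℕ in atTop, (Q : ℝ) ^ (9 / 10 : ℝ) + D ≤ δ / 2 * (Q / (2 * Real.log Q)) := by
    have e1 : ∀ᶠ x : ℝ in atTop, Real.log x ≤ x ^ (1 / 20 : ℝ) := by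
      have := (isLittleO_log_rpow_atTop (by norm_num : (0 : ℝ) < 1 / 20)).bound (show (0 : ℝ) < 1 by norm_num)
      filter_upwards [this, eventually_ge_atTop (1 : ℝ)] with x hx hx1
      rw [Real.norm_eq_abs, Real.norm_eq_abs, one_mul, abs_of_nonneg (by positivity : (0 : ℝ) ≤ x ^ (1 / 20 : ℝ))] at hx
      exact (le_abs_self _).trans hx
    have e2 : ∀ᶠ x : ℝ in atTop, (8 / δ + 1 + D : ℝ) ≤ x ^ (1 / 20 : ℝ) :=
      (tendsto_rpow_atTop (by norm_num : (0 : ℝ) < 1 / 20)).eventually_ge_atTop _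
    have hc := tendsto_natCast_atTop_atTop (R := ℝ)
    filter_upwards [hc.eventually e1, hc.eventually e2, eventually_ge_atTop 3] with Q a1 a2 a3
    have hQ3 : (3 : ℝ) ≤ Q := by exact_mod_cast a3
    have hQ0 : (0 : ℝ) < Q := by linarith
    have hlog : 0 < Real.log Q := Real.log_pos (by linarith)
    obtain ⟨y, hy⟩ : ∃ y : ℝ, y = (Q : ℝ) ^ (1 / 20 : ℝ) := ⟨_, rfl⟩
    rw [← hy] at a1 a2
    have hy0 : 0 < y := by rw [hy]; positivity
    have hδ8 : 0 < 8 / δ := by positivity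
    have hD0 : (0 : ℝ) ≤ D := Nat.cast_nonneg _
    have hy20 : (Q : ℝ) = y ^ 20 := by
      rw [hy, ← Real.rpow_natCast, ← Real.rpow_mul hQ0.le]
      norm_num
    have hy18 : (Q : ℝ) ^ (9 / 10 : ℝ) = y ^ 18 := by
      rw [hy, ← Real.rpow_natCast, ← Real.rpow_mul hQ0.le]
      norm_num
    rw [hy18]
    have hy1 : 1 ≤ y := by linarith
    have h8 : 8 ≤ y * δ := by
      have : 8 / δ ≤ y := by linarith
      rwa [div_le_iff₀ hδ] at this
    -- right side at least `δ/4 * y^19`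
    have h9 : δ / 2 * (Q / (2 * Real.log Q)) ≥ δ / 4 * y ^ 19 := by
      have h10 : (Q : ℝ) / (2 * Real.log Q) ≥ y ^ 19 / 2 := by
        rw [ge_iff_le, div_le_div_iff₀ (by norm_num) (by positivity), hy20]
        have : y ^ 19 * (2 * Real.log (y ^ 20)) ≤ y ^ 19 * (2 * y) := by
          rw [← hy20]
          gcongr
        calc y ^ 19 * (2 * Real.log (y ^ 20)) ≤ y ^ 19 * (2 * y) := this
          _ = y ^ 20 * 2 := by ring
      calc δ / 2 * (Q / (2 * Real.log Q)) ≥ δ / 2 * (y ^ 19 / 2) := by gcongr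
        _ = δ / 4 * y ^ 19 := by ring
    refine le_trans ?_ h9
    have h11 : δ / 4 * y ^ 19 ≥ 2 * y ^ 18 := by
      have : δ / 4 * y ^ 19 = (y * δ) / 4 * y ^ 18 := by ring
      rw [this]
      have h12 : 0 < y ^ 18 := by positivity
      nlinarith
    have h12 : (D : ℝ) ≤ y ^ 18 := by
      calc (D : ℝ) ≤ y := by linarith
        _ ≤ y ^ 18 := le_self_pow₀ hy1 (by norm_num)
    linarith
  obtain ⟨Q₀, hQ₀⟩ := ((h1.and h2).and h3).exists_forall_of_atTop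
  refine ⟨Q₀ + 1, fun Q hQ => ?_⟩
  obtain ⟨⟨a1, a2⟩, a3⟩ := hQ₀ Q (by omega)
  obtain ⟨P₀, hP₀⟩ : ∃ P₀ : Finset ℕ, P₀ = (pr Q).filter (fun q : ℕ => ∃ r : ℤ, (q : ℤ) ∣ f.eval r) := ⟨_, rfl⟩
  have hP₀c : δ / 2 * (Q / (2 * Real.log Q)) ≤ P₀.card := by
    unfold M at a1
    rw [Finset.sum_boole, ← hP₀] at a1
    have hpi : 0 < (Nat.primeCounting Q : ℝ) := by
      rcases Nat.eq_zero_or_pos (Nat.primeCounting Q) with h0 | h0
      · rw [h0, Nat.cast_zero, div_zero] at a1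
        linarith
      · exact_mod_cast h0
    rw [lt_div_iff₀ hpi] at a1
    calc δ / 2 * (Q / (2 * Real.log Q)) ≤ δ / 2 * Nat.primeCounting Q := by gcongr
      _ ≤ P₀.card := a1.le
  refine ⟨P₀.filter (fun p => ¬ p ∣ D), ?_, ?_⟩
  · intro p hp
    rw [Finset.mem_filter, hP₀, Finset.mem_filter] at hp
    have h4 := hp.1.1
    unfold pr at h4
    rw [Finset.mem_filter, Finset.mem_range] at h4
    exact ⟨h4.2, by omega, hp.2, hp.1.2⟩
  · have h4 : (P₀.filter (fun p => p ∣ D)).card ≤ D := by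
      have h5 : P₀.filter (fun p => p ∣ D) ⊆ Finset.Icc 1 D := by
        intro p hp
        rw [Finset.mem_filter, hP₀, Finset.mem_filter] at hp
        have h6 := hp.1.1
        unfold pr at h6
        rw [Finset.mem_filter] at h6
        exact Finset.mem_Icc.2 ⟨h6.2.one_lt.le, Nat.le_of_dvd (Nat.pos_of_ne_zero hD) hp.2⟩
      have := Finset.card_le_card h5
      rwa [Nat.card_Icc, Nat.add_sub_cancel] at this
    have h5 := Finset.card_filter_add_card_filter_not (s := P₀) (fun p => p ∣ D)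
    have h6 : (P₀.card : ℝ) ≤ D + (P₀.filter (fun p => ¬ p ∣ D)).card := by
      have : P₀.card ≤ D + (P₀.filter (fun p => ¬ p ∣ D)).card := by omega
      exact_mod_cast this
    linarith

/-- roots of an arbitrary nonconstant polynomial -/
theorem many_roots (G : ℤ[X]) (hG : 1 ≤ G.natDegree) :
    ∃ Q₀ : ℕ, ∀ Q : ℕ, Q₀ ≤ Q → ∃ P : Finset ℕ, (∀ p ∈ P, p.Prime ∧ p ≤ Q ∧ ∃ r : ℤ, (p : ℤ) ∣ G.eval r) ∧
      (Q : ℝ) ^ (9 / 10 : ℝ) ≤ P.card := by
  have hG0 : G ≠ 0 := by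
    rintro rfl
    rw [natDegree_zero] at hG
    omega
  obtain ⟨H, hH⟩ : ∃ H : ℤ[X], H = G.integralNormalization := ⟨_, rfl⟩
  have hHm : H.Monic := by rw [hH]; exact monic_integralNormalization hG0
  have hHd : H.natDegree = G.natDegree := by
    rw [hH]
    exact natDegree_integralNormalization
  have hHu : ¬ IsUnit H := by
    intro h
    have h2 := natDegree_eq_zero_of_isUnit h
    omega
  obtain ⟨f₀, hf₀, hf₀H⟩ := WfDvdMonoid.exists_irreducible_factor hHu hHm.ne_zero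
  obtain ⟨g, hg⟩ := hf₀H
  -- a monic associate
  have hlc : IsUnit f₀.leadingCoeff := by
    have h1 : f₀.leadingCoeff * g.leadingCoeff = 1 := by
      rw [← leadingCoeff_mul, ← hg]
      exact hHm
    exact IsUnit.of_mul_eq_one _ h1
  obtain ⟨f, hfm, hfi, hfH⟩ : ∃ f : ℤ[X], f.Monic ∧ Irreducible f ∧ f ∣ H := by
    rcases Int.isUnit_iff.1 hlc with h1 | h1
    · exact ⟨f₀, h1, hf₀, ⟨g, hg⟩⟩
    · refine ⟨-f₀, ?_, ?_, ?_⟩
      · rw [Monic, leadingCoeff_neg, h1]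
        norm_num
      · exact (Associated.neg_left (Associated.refl f₀)).symm.irreducible hf₀
      · rw [neg_dvd]
        exact ⟨g, hg⟩
  have hfd : 1 ≤ f.natDegree := by
    by_contra h
    have h0 : f.natDegree = 0 := by omega
    have h1 := hfm.natDegree_eq_zero.1 h0
    rw [h1] at hfi
    exact hfi.not_isUnit isUnit_one
  obtain ⟨c, hc⟩ : ∃ c : ℤ, c = G.leadingCoeff := ⟨_, rfl⟩
  have hc0 : c ≠ 0 := by rw [hc]; exact leadingCoeff_ne_zero.2 hG0
  obtain ⟨Q₀, hQ₀⟩ := many_monic f hfm hfi hfd c.natAbs (Int.natAbs_ne_zero.2 hc0)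
  refine ⟨Q₀, fun Q hQ => ?_⟩
  obtain ⟨P, hP, hPc⟩ := hQ₀ Q hQ
  refine ⟨P, fun p hp => ?_, hPc⟩
  obtain ⟨hpp, hpQ, hpc, r, hr⟩ := hP p hp
  refine ⟨hpp, hpQ, ?_⟩
  have : Fact p.Prime := ⟨hpp⟩
  have hcp : (c : ZMod p) ≠ 0 := by
    intro h
    rw [ZMod.intCast_zmod_eq_zero_iff_dvd] at h
    exact hpc (Int.natCast_dvd.1 h)
  -- a root of `H`
  have h1 : (p : ℤ) ∣ H.eval r := dvd_trans hr (eval_dvd hfH)
  have h2 : eval₂ (Int.castRingHom (ZMod p)) (r : ZMod p) H = 0 := by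
    have h3 := Polynomial.hom_eval₂ H (RingHom.id ℤ) (Int.castRingHom (ZMod p)) r
    rw [RingHom.comp_id] at h3
    have h4 : eval₂ (RingHom.id ℤ) r H = H.eval r := rfl
    rw [h4] at h3
    change (Int.castRingHom (ZMod p)) (H.eval r) = eval₂ (Int.castRingHom (ZMod p)) (r : ZMod p) H at h3
    rw [← h3, eq_intCast, ZMod.intCast_zmod_eq_zero_iff_dvd]
    exact h1
  obtain ⟨x, hx⟩ : ∃ x : ZMod p, x = (c : ZMod p)⁻¹ * (r : ZMod p) := ⟨_, rfl⟩
  have h3 := integralNormalization_eval₂_leadingCoeff_mul hG (Int.castRingHom (ZMod p)) x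
  rw [← hH, eq_intCast, ← hc, hx, ← mul_assoc, mul_inv_cancel₀ hcp, one_mul, h2] at h3
  have h4 : eval₂ (Int.castRingHom (ZMod p)) ((c : ZMod p)⁻¹ * (r : ZMod p)) G = 0 := by
    rcases mul_eq_zero.1 h3.symm with h5 | h5
    · exact absurd h5 (pow_ne_zero _ hcp)
    · exact h5
  obtain ⟨s, hs⟩ := ZMod.intCast_surjective ((c : ZMod p)⁻¹ * (r : ZMod p))
  refine ⟨s, ?_⟩
  rw [← hs] at h4
  rw [← ZMod.intCast_zmod_eq_zero_iff_dvd]
  have h5 := Polynomial.hom_eval₂ G (RingHom.id ℤ) (Int.castRingHom (ZMod p)) s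
  rw [RingHom.comp_id] at h5
  change (Int.castRingHom (ZMod p)) (G.eval s) = eval₂ (Int.castRingHom (ZMod p)) (s : ZMod p) G at h5
  rw [h4, eq_intCast] at h5
  exact h5

/-- the difference polynomial is not constant -/
theorem diff_degree (U : ℤ[X]) (hU : 2 ≤ U.natDegree) : 1 ≤ (U.comp (X + 1) - U).natDegree := by
  by_contra hcon
  have h0 : (U.comp (X + 1) - U).natDegree = 0 := by omega
  rw [natDegree_eq_zero] at h0
  obtain ⟨c, hc⟩ := h0
  have h1 : ∀ n : ℕ, U.eval (n : ℤ) = U.eval 0 + c * n := by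
    intro n
    induction n with
    | zero => simp
    | succ n ih =>
      have h2 := congrArg (eval (n : ℤ)) hc
      rw [eval_C, eval_sub, eval_comp, eval_add, eval_X, eval_one] at h2
      push_cast
      rw [show U.eval ((n : ℤ) + 1) = c + U.eval (n : ℤ) by linarith, ih]
      ring
  have h2 : U = C (U.eval 0) + C c * X := by
    apply Polynomial.eq_of_infinite_eval_eq
    apply Set.Infinite.mono (s := Set.range (fun n : ℕ => (n : ℤ)))
    · rintro _ ⟨n, rfl⟩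
      simp only [Set.mem_ofPred_eq, eval_add, eval_C, eval_mul, eval_X]
      exact h1 n
    · exact Set.infinite_range_of_injective Nat.cast_injective
  have h3 : U.natDegree ≤ 1 := by
    rw [h2]
    compute_degree
  omega

/-- many primes modulo which the values `U r` and `U (r + 1)` agree for some `r` -/
theorem many_collisions (U : ℤ[X]) (hU : 2 ≤ U.natDegree) :
    ∃ Q₀ : ℕ, ∀ Q : ℕ, Q₀ ≤ Q → ∃ P : Finset ℕ, (∀ p ∈ P, p.Prime ∧ p ≤ Q ∧ ∃ r : ℤ, (p : ℤ) ∣ U.eval (r + 1) - U.eval r) ∧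
      (Q : ℝ) ^ (9 / 10 : ℝ) ≤ P.card := by
  obtain ⟨Q₀, hQ₀⟩ := many_roots _ (diff_degree U hU)
  refine ⟨Q₀, fun Q hQ => ?_⟩
  obtain ⟨P, hP, hPc⟩ := hQ₀ Q hQ
  refine ⟨P, fun p hp => ?_, hPc⟩
  obtain ⟨a1, a2, r, a3⟩ := hP p hp
  refine ⟨a1, a2, r, ?_⟩
  rw [eval_sub, eval_comp, eval_add, eval_X, eval_one] at a3
  exact a3

end Pool.Agent.K7.H67.SIV
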