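import Pool.Agent.K7.H67.SIV.Val
import Pool.Agent.K7.H67.SIV.Mom
import Pool.Agent.K7.H67.SIV.Prim

/-!
# Few members of an equidistributed family are values of a polynomial (helper67)
-/

set_option autoImplicit false

namespace Pool.Agent.K7.H67.SIV

open Finset Polynomial

open Classical in
/-- the residues of the values -/
noncomputable def ValR (U : ℤ[X]) (p : ℕ) : Finset ℕ := (range p).filter (fun a => ∃ k : ℤ, (p : ℤ) ∣ U.eval k - a)

lemma valR_card (U : ℤ[X]) {p : ℕ} (hp : p.Prime) (d : ℕ) (hd : 1 ≤ d) (hU : U.natDegree ≤ d) (r : ℤ) (hr : (p : ℤ) ∣ U.eval (r + 1) - U.eval r) :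
    1 / (2 * d : ℝ) * p ≤ p - ((ValR U p).card : ℝ) := by
  classical
  have : Fact p.Prime := ⟨hp⟩
  obtain ⟨u, hu⟩ : ∃ u : (ZMod p)[X], u = U.map (Int.castRingHom (ZMod p)) := ⟨_, rfl⟩
  have hev : ∀ k : ℤ, u.eval (k : ZMod p) = ((U.eval k : ℤ) : ZMod p) := by
    intro k
    rw [hu, eval_intCast_map]
    rfl
  have hud : u.natDegree ≤ d := by
    rw [hu]
    exact natDegree_map_le.trans hU
  have h1 := few_values u d hd hud ((r + 1 : ℤ) : ZMod p) (r : ZMod p) (by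
    intro h
    push_cast at h
    exact one_ne_zero (add_eq_left.1 h)) (by
    rw [hev, hev, ← sub_eq_zero, ← Int.cast_sub, ZMod.intCast_zmod_eq_zero_iff_dvd]
    exact hr)
  have h2 : (ValR U p).card ≤ (univ.image (fun z => u.eval z)).card := by
    apply card_le_card_of_injOn (fun a : ℕ => (a : ZMod p))
    · intro a ha
      unfold ValR at ha
      rw [mem_coe, mem_filter] at ha
      obtain ⟨k, hk⟩ := ha.2
      rw [mem_coe, mem_image]
      refine ⟨(k : ZMod p), mem_univ _, ?_⟩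
      simp only
      rw [hev]
      have : ((U.eval k - a : ℤ) : ZMod p) = 0 := by rwa [ZMod.intCast_zmod_eq_zero_iff_dvd]
      push_cast at this
      exact sub_eq_zero.1 this
    · intro a ha b hb hab
      unfold ValR at ha hb
      rw [mem_coe, mem_filter, mem_range] at ha hb
      have h6 := (ZMod.natCast_eq_natCast_iff' a b p).1 hab
      rwa [Nat.mod_eq_of_lt ha.1, Nat.mod_eq_of_lt hb.1] at h6
  have h3 : ((ValR U p).card : ℝ) ≤ ((univ.image (fun z => u.eval z)).card : ℝ) := by exact_mod_cast h2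
  have h4 : 1 / (2 * d : ℝ) * p = p / (2 * d) := by ring
  rw [h4]
  linarith

lemma valR_mem (U : ℤ[X]) {p : ℕ} (hp : p.Prime) (k : ℤ) : InR p (ValR U p) (U.eval k) := by
  classical
  refine ⟨(U.eval k % p).toNat, ?_, ?_⟩
  · unfold ValR
    have h1 := Int.emod_nonneg (U.eval k) (by exact_mod_cast hp.ne_zero : (p : ℤ) ≠ 0)
    have h2 := Int.emod_lt_of_pos (U.eval k) (by exact_mod_cast hp.pos : (0 : ℤ) < p)
    rw [mem_filter, mem_range]
    refine ⟨by omega, k, ?_⟩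
    rw [Int.toNat_of_nonneg h1]
    exact Int.dvd_self_sub_emod
  · have h1 := Int.emod_nonneg (U.eval k) (by exact_mod_cast hp.ne_zero : (p : ℤ) ≠ 0)
    rw [Int.toNat_of_nonneg h1]
    exact Int.dvd_self_sub_emod

open Classical in
/-- **Few members are values of a polynomial.** -/
theorem few_values_family (U : ℤ[X]) (hU : 2 ≤ U.natDegree) : ∃ X₀ : ℕ, ∀ X : ℕ, X₀ ≤ X → ∀ (ι : Type) (T : Finset ι) (t : ι → ℤ),
    EquiZ T t X → ((T.filter (fun i => ∃ k : ℤ, U.eval k = t i)).card : ℝ) * (X : ℝ) ^ (7 / 25 : ℝ) ≤ T.card := by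
  obtain ⟨Q₀, hQ₀⟩ := many_collisions U hU
  obtain ⟨d, hd⟩ : ∃ d, d = U.natDegree := ⟨_, rfl⟩
  have hd1 : 1 ≤ d := by omega
  have hdr : (1 : ℝ) ≤ d := by exact_mod_cast hd1
  -- `Q = ⌊(X/3)^(1/3)⌋`, `Q ≥ X^(33/100)`
  have hev : ∀ᶠ X : ℕ in Filter.atTop, (Q₀ : ℝ) + 2 ≤ (X : ℝ) ^ (33 / 100 : ℝ) ∧ 2 * (X : ℝ) ^ (33 / 100 : ℝ) ≤ (X / 3 : ℝ) ^ (1 / 3 : ℝ) ∧
      8 * (d : ℝ) ^ 2 ≤ (X : ℝ) ^ (1 / 1000 : ℝ) ∧ 1 ≤ X := by
    have hc := tendsto_natCast_atTop_atTop (R := ℝ)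
    have e1 : ∀ᶠ x : ℝ in Filter.atTop, (Q₀ : ℝ) + 2 ≤ x ^ (33 / 100 : ℝ) :=
      (tendsto_rpow_atTop (by norm_num : (0 : ℝ) < 33 / 100)).eventually_ge_atTop _
    have e2 : ∀ᶠ x : ℝ in Filter.atTop, (8 : ℝ) * d ^ 2 ≤ x ^ (1 / 1000 : ℝ) :=
      (tendsto_rpow_atTop (by norm_num : (0 : ℝ) < 1 / 1000)).eventually_ge_atTop _
    have e3 : ∀ᶠ x : ℝ in Filter.atTop, (2 * 3 ^ (1 / 3 : ℝ) : ℝ) ≤ x ^ (1 / 300 : ℝ) :=
      (tendsto_rpow_atTop (by norm_num : (0 : ℝ) < 1 / 300)).eventually_ge_atTop _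
    filter_upwards [hc.eventually e1, hc.eventually e2, hc.eventually e3, Filter.eventually_ge_atTop 1] with X a1 a2 a3 a4
    have hX1 : (1 : ℝ) ≤ X := by exact_mod_cast a4
    have hX0 : (0 : ℝ) < X := by linarith
    refine ⟨a1, ?_, a2, a4⟩
    rw [Real.div_rpow hX0.le (by norm_num), le_div_iff₀ (by positivity)]
    calc 2 * (X : ℝ) ^ (33 / 100 : ℝ) * 3 ^ (1 / 3 : ℝ) = (2 * 3 ^ (1 / 3 : ℝ)) * (X : ℝ) ^ (33 / 100 : ℝ) := by ring
      _ ≤ (X : ℝ) ^ (1 / 300 : ℝ) * (X : ℝ) ^ (33 / 100 : ℝ) := by gcongr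
      _ = (X : ℝ) ^ (1 / 3 : ℝ) := by
          rw [← Real.rpow_add hX0]
          norm_num
  obtain ⟨X₀, hX₀⟩ := hev.exists_forall_of_atTop
  refine ⟨X₀, fun X hX ι T t hT => ?_⟩
  obtain ⟨a1, a2, a3, a4⟩ := hX₀ X hX
  have hX1 : (1 : ℝ) ≤ X := by exact_mod_cast a4
  have hX0 : (0 : ℝ) < X := by linarith
  obtain ⟨Q, hQ⟩ : ∃ Q : ℕ, Q = ⌊(X / 3 : ℝ) ^ (1 / 3 : ℝ)⌋₊ := ⟨_, rfl⟩
  have hQle : (Q : ℝ) ≤ (X / 3 : ℝ) ^ (1 / 3 : ℝ) := by rw [hQ]; exact Nat.floor_le (by positivity)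
  have hQge : (X : ℝ) ^ (33 / 100 : ℝ) ≤ Q := by
    have h1 : (X / 3 : ℝ) ^ (1 / 3 : ℝ) < Q + 1 := by rw [hQ]; exact Nat.lt_floor_add_one _
    have h2 : (0 : ℝ) ≤ Q₀ := Nat.cast_nonneg _
    linarith
  have hQX : 3 * Q ^ 3 ≤ X := by
    have h1 : (Q : ℝ) ^ 3 ≤ X / 3 := by
      calc (Q : ℝ) ^ 3 ≤ ((X / 3 : ℝ) ^ (1 / 3 : ℝ)) ^ 3 := pow_le_pow_left₀ (Nat.cast_nonneg _) hQle 3
        _ = X / 3 := by
            rw [← Real.rpow_natCast, ← Real.rpow_mul (by positivity)]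
            norm_num
    have h2 : (3 : ℝ) * (Q : ℝ) ^ 3 ≤ X := by linarith
    exact_mod_cast h2
  have hQQ₀ : Q₀ ≤ Q := by
    have : (Q₀ : ℝ) ≤ Q := by linarith
    exact_mod_cast this
  obtain ⟨P, hP, hPc⟩ := hQ₀ Q hQQ₀
  have h1 := sieve T t X hT P (fun p hp => (hP p hp).1) Q (fun p hp => (hP p hp).2.1) hQX (ValR U) (1 / (2 * d)) (by positivity)
    (fun p hp => by
      obtain ⟨b1, -, r, b3⟩ := hP p hp
      refine ⟨filter_subset _ _, ?_⟩
      have := valR_card U b1 d hd1 hd.ge r b3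
      simpa using this)
    (T.filter (fun i => ∃ k : ℤ, U.eval k = t i)) (filter_subset _ _) (by
      intro i hi p hp
      rw [mem_filter] at hi
      obtain ⟨-, k, hk⟩ := hi
      rw [← hk]
      exact valR_mem U (hP p hp).1 k)
  obtain ⟨s, hs⟩ : ∃ s : ℝ, s = ((T.filter (fun i => ∃ k : ℤ, U.eval k = t i)).card : ℝ) := ⟨_, rfl⟩
  have hs0 : 0 ≤ s := by rw [hs]; positivity
  rw [← hs] at h1 ⊢
  have hPc2 : (X : ℝ) ^ (297 / 1000 : ℝ) ≤ P.card := by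
    refine le_trans ?_ hPc
    calc (X : ℝ) ^ (297 / 1000 : ℝ) = ((X : ℝ) ^ (33 / 100 : ℝ)) ^ (9 / 10 : ℝ) := by
          rw [← Real.rpow_mul hX0.le]
          norm_num
      _ ≤ (Q : ℝ) ^ (9 / 10 : ℝ) := by gcongr
  have h2 : s * P.card ≤ 8 * (d : ℝ) ^ 2 * T.card := by
    have h3 : s * ((1 / (2 * d)) ^ 2 * P.card) = s * P.card / (4 * (d : ℝ) ^ 2) := by
      field_simp
      ring
    rw [h3, div_le_iff₀ (by positivity)] at h1
    linarith
  have hT0 : (0 : ℝ) ≤ T.card := Nat.cast_nonneg _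
  have h3 : s * (X : ℝ) ^ (7 / 25 : ℝ) * (X : ℝ) ^ (1 / 1000 : ℝ) ≤ T.card * (X : ℝ) ^ (1 / 1000 : ℝ) := by
    calc s * (X : ℝ) ^ (7 / 25 : ℝ) * (X : ℝ) ^ (1 / 1000 : ℝ) = s * (X : ℝ) ^ (281 / 1000 : ℝ) := by
          rw [mul_assoc, ← Real.rpow_add hX0]
          norm_num
      _ ≤ s * (X : ℝ) ^ (297 / 1000 : ℝ) := by
          apply mul_le_mul_of_nonneg_left _ hs0
          exact Real.rpow_le_rpow_of_exponent_le hX1 (by norm_num)
      _ ≤ s * P.card := mul_le_mul_of_nonneg_left hPc2 hs0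
      _ ≤ 8 * (d : ℝ) ^ 2 * T.card := h2
      _ ≤ (X : ℝ) ^ (1 / 1000 : ℝ) * T.card := mul_le_mul_of_nonneg_right a3 hT0
      _ = _ := mul_comm _ _
  exact le_of_mul_le_mul_right h3 (by positivity)

open Classical in
/-- a constant is rarely attained -/
theorem few_constant (u : ℤ) (X : ℕ) (hX : 1 ≤ X) {ι : Type} (T : Finset ι) (t : ι → ℤ) (hT : EquiZ T t X) :
    ((T.filter (fun i => u = t i)).card : ℝ) * X ≤ 2 * T.card := by
  have hX0 : (0 : ℝ) < X := by exact_mod_cast hX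
  have h1 := hT X hX le_rfl u
  have h2 := (abs_le.1 h1).2
  have h3 : ((T.filter (fun i => u = t i)).card : ℝ) ≤ ((T.filter (fun i => (X : ℤ) ∣ t i - u)).card : ℝ) := by
    apply Nat.cast_le.2
    apply card_le_card
    intro i hi
    rw [mem_filter] at hi ⊢
    refine ⟨hi.1, ?_⟩
    rw [← hi.2, sub_self]
    exact dvd_zero _
  have h4 : ((T.filter (fun i => u = t i)).card : ℝ) ≤ 2 * T.card / X := by
    have : (2 : ℝ) * T.card / X = T.card / X + T.card / X := by ring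
    rw [this]
    linarith
  rwa [le_div_iff₀ hX0] at h4

/-- residues of a natural family -/
lemma equiZ_of_nat {ι : Type} (T : Finset ι) (t : ι → ℕ) (X : ℕ)
    (h : ∀ q : ℕ, 1 ≤ q → q ≤ X → ∀ r < q, |((T.filter (fun i => t i % q = r)).card : ℝ) - (T.card : ℝ) / q| ≤ (T.card : ℝ) / X) :
    EquiZ T (fun i => (t i : ℤ)) X := by
  classical
  intro q hq1 hqX r
  have h1 := Int.emod_nonneg r (by omega : (q : ℤ) ≠ 0)
  have h2 := Int.emod_lt_of_pos r (by omega : (0 : ℤ) < q)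
  have h3 := h q hq1 hqX (r % q).toNat (by omega)
  have h4 : T.filter (fun i => (q : ℤ) ∣ (t i : ℤ) - r) = T.filter (fun i => t i % q = (r % q).toNat) := by
    apply filter_congr
    intro i _
    constructor
    · intro h5
      have h6 : r % (q : ℤ) = (t i : ℤ) % q := (Int.modEq_iff_dvd).2 h5
      omega
    · intro h5
      have h6 : (t i : ℤ) % q = r % q := by
        have : ((t i % q : ℕ) : ℤ) = ((r % q).toNat : ℤ) := by rw [h5]
        rw [Int.toNat_of_nonneg h1] at this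
        push_cast at this
        exact this
      exact (Int.modEq_iff_dvd).1 (Int.ModEq.symm h6)
  rw [h4]
  exact h3

end Pool.Agent.K7.H67.SIV
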