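import Mathlib

/-!
# The number of values of a polynomial modulo a prime (helper67)

A polynomial of degree at most `d` over a prime field which is not injective misses at least `p / (2 d)` values.
-/

set_option autoImplicit false

namespace Pool.Agent.K7.H67.SIV

open Finset Polynomial

/-- moments determine a function with small support -/
lemma moments {F : Type} [Field F] [Fintype F] [DecidableEq F] (w : F → F) (s : Finset F) (hs : ∀ b, w b ≠ 0 ↔ b ∈ s)
    (L : ℕ) (hL : s.card ≤ L) (h : ∀ i < L, ∑ b, w b * b ^ i = 0) : s = ∅ := by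
  by_contra hne
  obtain ⟨b₀, hb₀⟩ := nonempty_iff_ne_empty.2 hne
  have hcard : 0 < s.card := card_pos.2 ⟨b₀, hb₀⟩
  obtain ⟨g, hg⟩ : ∃ g : F[X], g = ∏ b ∈ s.erase b₀, (X - C b) := ⟨_, rfl⟩
  have hgd : g.natDegree < L := by
    rw [hg, natDegree_prod_of_monic _ _ (fun b _ => monic_X_sub_C b)]
    simp only [natDegree_X_sub_C, sum_const, smul_eq_mul, mul_one]
    rw [card_erase_of_mem hb₀]
    omega
  have h1 : ∑ b, w b * g.eval b = 0 := by
    have h2 : ∀ b, w b * g.eval b = ∑ i ∈ range L, g.coeff i * (w b * b ^ i) := by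
      intro b
      rw [eval_eq_sum_range' hgd, mul_sum]
      refine sum_congr rfl fun i _ => ?_
      ring
    rw [sum_congr rfl (fun b _ => h2 b), sum_comm]
    apply sum_eq_zero
    intro i hi
    rw [← mul_sum, h i (mem_range.1 hi), mul_zero]
  have h3 : ∑ b, w b * g.eval b = w b₀ * g.eval b₀ := by
    apply sum_eq_single b₀
    · intro b _ hb
      by_cases hbs : b ∈ s
      · have : g.eval b = 0 := by
          rw [hg, eval_prod]
          apply prod_eq_zero (mem_erase.2 ⟨hb, hbs⟩)
          simp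
        rw [this, mul_zero]
      · have : w b = 0 := by
          by_contra hw
          exact hbs ((hs b).1 hw)
        rw [this, zero_mul]
    · intro hb
      exact absurd (mem_univ _) hb
  rw [h3] at h1
  rcases mul_eq_zero.1 h1 with h4 | h4
  · exact (hs b₀).2 hb₀ h4
  · rw [hg, eval_prod, prod_eq_zero_iff] at h4
    obtain ⟨b, hb, h5⟩ := h4
    rw [mem_erase] at hb
    rw [eval_sub, eval_X, eval_C, sub_eq_zero] at h5
    exact hb.1 h5.symm

/-- the power sums of the values of a polynomial of small degree vanish -/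
lemma sum_eval {p : ℕ} [Fact p.Prime] (g : (ZMod p)[X]) (hg : g.natDegree < p - 1) : ∑ x : ZMod p, g.eval x = 0 := by
  have h1 : ∀ x : ZMod p, g.eval x = ∑ i ∈ range (p - 1), g.coeff i * x ^ i := fun x => eval_eq_sum_range' hg x
  rw [sum_congr rfl (fun x _ => h1 x), sum_comm]
  apply sum_eq_zero
  intro i hi
  rw [mem_range] at hi
  rw [← mul_sum, FiniteField.sum_pow_lt_card_sub_one (ZMod p) i (by rw [ZMod.card]; exact hi), mul_zero]

/-- **Few values.** -/
theorem few_values {p : ℕ} [Fact p.Prime] (u : (ZMod p)[X]) (d : ℕ) (hd : 1 ≤ d) (hu : u.natDegree ≤ d) (x y : ZMod p) (hxy : x ≠ y)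
    (huxy : u.eval x = u.eval y) : (p : ℝ) / (2 * d) ≤ p - ((univ.image (fun z => u.eval z)).card : ℝ) := by
  classical
  obtain ⟨V, hV⟩ : ∃ V : Finset (ZMod p), V = univ.image (fun z => u.eval z) := ⟨_, rfl⟩
  rw [← hV]
  have hp2 : 2 ≤ p := (Fact.out : p.Prime).two_le
  -- multiplicities
  obtain ⟨N, hN⟩ : ∃ N : ZMod p → ℕ, N = fun b => (univ.filter (fun z => u.eval z = b)).card := ⟨_, rfl⟩
  have hNV : ∀ b, N b ≠ 0 ↔ b ∈ V := by
    intro b
    rw [hN, hV]
    simp only
    rw [Ne, card_eq_zero, ← Ne, ← nonempty_iff_ne_empty, mem_image]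
    constructor
    · rintro ⟨z, hz⟩
      exact ⟨z, mem_univ _, (mem_filter.1 hz).2⟩
    · rintro ⟨z, -, hz⟩
      exact ⟨z, mem_filter.2 ⟨mem_univ _, hz⟩⟩
  have hsum : ∑ b, N b = p := by
    have h1 := card_eq_sum_card_fiberwise (s := (univ : Finset (ZMod p))) (t := univ) (f := fun z => u.eval z) (fun _ _ => mem_coe.2 (mem_univ _))
    rw [card_univ, ZMod.card] at h1
    rw [hN]
    exact h1.symm
  obtain ⟨Mi, hMi⟩ : ∃ Mi : Finset (ZMod p), Mi = univ \ V := ⟨_, rfl⟩
  obtain ⟨D, hD⟩ : ∃ D : Finset (ZMod p), D = univ.filter (fun b => 2 ≤ N b) := ⟨_, rfl⟩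
  have hMcard : Mi.card + V.card = p := by
    rw [hMi, card_sdiff_add_card_eq_card (subset_univ V), card_univ, ZMod.card]
  have hDV : D ⊆ V := by
    intro b hb
    rw [hD, mem_filter] at hb
    rw [← hNV]
    omega
  have hDM : D.card ≤ Mi.card := by
    have h1 : ∑ b ∈ V, N b = p := by
      refine Eq.trans (sum_subset (subset_univ V) ?_) hsum
      intro b _ hb
      by_contra h
      exact hb ((hNV b).1 h)
    have h2 : V.card + D.card ≤ ∑ b ∈ V, N b := by
      have h3 : ∀ b ∈ V, (1 + if b ∈ D then 1 else 0) ≤ N b := by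
        intro b hb
        have h4 := (hNV b).2 hb
        split_ifs with h5
        · rw [hD, mem_filter] at h5
          omega
        · omega
      calc V.card + D.card = ∑ b ∈ V, (1 + if b ∈ D then 1 else 0) := by
            rw [sum_add_distrib, sum_const, smul_eq_mul, mul_one, sum_ite_mem, inter_eq_right.2 hDV, sum_const, smul_eq_mul, mul_one]
        _ ≤ _ := sum_le_sum h3
    omega
  -- a missing value
  have hMne : Mi ≠ ∅ := by
    intro h
    have hVu : V = univ := by
      rw [hMi, sdiff_eq_empty_iff_subset] at h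
      exact univ_subset_iff.1 h
    have hsurj : Function.Surjective (fun z : ZMod p => u.eval z) := by
      intro b
      have : b ∈ V := by rw [hVu]; exact mem_univ b
      rw [hV, mem_image] at this
      obtain ⟨z, -, hz⟩ := this
      exact ⟨z, hz⟩
    exact hxy ((Finite.injective_iff_surjective.2 hsurj) huxy)
  -- the weight
  obtain ⟨w, hw⟩ : ∃ w : ZMod p → ZMod p, w = fun b => (N b : ZMod p) - 1 := ⟨_, rfl⟩
  obtain ⟨s, hs⟩ : ∃ s : Finset (ZMod p), s = univ.filter (fun b => w b ≠ 0) := ⟨_, rfl⟩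
  have hsMD : s ⊆ Mi ∪ D := by
    intro b hb
    rw [hs, mem_filter, hw] at hb
    rw [mem_union, hMi, hD, mem_sdiff, mem_filter]
    by_cases h0 : N b = 0
    · left
      exact ⟨mem_univ _, fun h => (hNV b).2 h h0⟩
    · right
      refine ⟨mem_univ _, ?_⟩
      have : N b ≠ 1 := by
        intro h1
        apply hb.2
        simp only
        rw [h1, Nat.cast_one, sub_self]
      omega
  have hscard : s.card ≤ 2 * Mi.card := (card_le_card hsMD).trans ((card_union_le _ _).trans (by omega))
  have hsne : s ≠ ∅ := by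
    obtain ⟨b, hb⟩ := nonempty_iff_ne_empty.2 hMne
    intro h
    have hbs : b ∈ s := by
      rw [hs, mem_filter, hw]
      refine ⟨mem_univ _, ?_⟩
      rw [hMi, mem_sdiff] at hb
      have : N b = 0 := by
        by_contra h2
        exact hb.2 ((hNV b).1 h2)
      simp only
      rw [this, Nat.cast_zero, zero_sub]
      exact neg_ne_zero.2 one_ne_zero
    rw [h] at hbs
    exact notMem_empty _ hbs
  have hmom : ∀ i : ℕ, i * d < p - 1 → ∑ b, w b * b ^ i = 0 := by
    intro i hi
    have hip : i < p - 1 := lt_of_le_of_lt (Nat.le_mul_of_pos_right i (by omega)) hi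
    have h1 : ∑ b, w b * b ^ i = ∑ b, (N b : ZMod p) * b ^ i - ∑ b, b ^ i := by
      rw [← sum_sub_distrib]
      refine sum_congr rfl fun b _ => ?_
      rw [hw]
      ring
    have h2 : ∑ b, (N b : ZMod p) * b ^ i = ∑ z : ZMod p, (u ^ i).eval z := by
      have h3 := sum_fiberwise_of_maps_to (s := (univ : Finset (ZMod p))) (t := univ) (g := fun z => u.eval z) (fun _ _ => mem_univ _)
        (fun z => (u ^ i).eval z)
      rw [← h3]
      refine sum_congr rfl fun b _ => ?_
      have h4 : ∀ z ∈ univ.filter (fun z => u.eval z = b), (u ^ i).eval z = b ^ i := by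
        intro z hz
        rw [eval_pow, (mem_filter.1 hz).2]
      rw [sum_congr rfl h4, sum_const, nsmul_eq_mul, hN]
    rw [h1, h2, sum_eval _ (lt_of_le_of_lt ((natDegree_pow_le).trans (Nat.mul_le_mul_left i hu)) hi),
      FiniteField.sum_pow_lt_card_sub_one (ZMod p) i (by rw [ZMod.card]; exact hip), sub_zero]
  -- the support is large
  have hlarge : p - 1 ≤ (s.card - 1) * d := by
    by_contra hcon
    push Not at hcon
    apply hsne
    apply moments w s (fun b => by rw [hs, mem_filter]; exact ⟨fun h => ⟨mem_univ _, h⟩, fun h => h.2⟩) s.card le_rfl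
    intro i hi
    apply hmom
    exact lt_of_le_of_lt (Nat.mul_le_mul_right d (by omega)) hcon
  have hM1 : 1 ≤ Mi.card := card_pos.2 (nonempty_iff_ne_empty.2 hMne)
  have h1 : p ≤ 2 * Mi.card * d := by
    have h2 : (s.card - 1) * d ≤ (2 * Mi.card - 1) * d := Nat.mul_le_mul_right d (by omega)
    have h3 : (2 * Mi.card - 1) * d + d = 2 * Mi.card * d := by
      rw [← Nat.succ_mul]
      congr 1
      omega
    omega
  have hdr : (0 : ℝ) < d := by exact_mod_cast hd
  have h2 : (p : ℝ) - V.card = Mi.card := by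
    have : (Mi.card : ℝ) + V.card = p := by exact_mod_cast hMcard
    linarith
  rw [h2, div_le_iff₀ (by positivity)]
  have h3 : (p : ℝ) ≤ 2 * Mi.card * d := by exact_mod_cast h1
  linarith

end Pool.Agent.K7.H67.SIV
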